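import Mathlib

namespace Pool.Agent.Results.MP_a37b83_nt.Q2No

open Finset

/-- `S` is zero-sum-free: no nonempty subset has sum `0` modulo `m`. -/
def ZSF (m : ℕ) (S : Finset (ZMod m)) : Prop := ∀ T ⊆ S, T.Nonempty → ∑ x ∈ T, x ≠ 0

/-- `k(m)`: the largest size of a zero-sum-free set of residues modulo `m`. -/
noncomputable def k (m : ℕ) : ℕ := sSup {n | ∃ S : Finset (ZMod m), ZSF m S ∧ S.card = n}

/-- `b(m) = ⌊(-1 + √(8m+9))/2⌋`. -/
noncomputable def b (m : ℕ) : ℕ := ⌊(-1 + √(8 * (m : ℝ) + 9)) / 2⌋₊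

theorem b_bound (m : ℕ) : b m * b m + b m ≤ 2 * m + 2 := by
  have h0 : (0 : ℝ) ≤ 8 * (m : ℝ) + 9 := by positivity
  have h3 : (3 : ℝ) ≤ √(8 * (m : ℝ) + 9) := by
    apply Real.le_sqrt_of_sq_le
    have : (0 : ℝ) ≤ m := by positivity
    nlinarith
  have h1 : ((b m : ℕ) : ℝ) ≤ (-1 + √(8 * (m : ℝ) + 9)) / 2 := Nat.floor_le (by linarith)
  have h2 : (2 * (b m : ℝ) + 1) ≤ √(8 * (m : ℝ) + 9) := by linarith
  have h4 : (2 * (b m : ℝ) + 1) ^ 2 ≤ 8 * (m : ℝ) + 9 := by
    have := Real.sq_sqrt h0
    have hb : (0 : ℝ) ≤ (b m : ℝ) := by positivity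
    nlinarith
  have h5 : ((b m * b m + b m : ℕ) : ℝ) ≤ ((2 * m + 2 : ℕ) : ℝ) := by
    push_cast; nlinarith
  exact_mod_cast h5

theorem b_ge (m : ℕ) : 1 ≤ b m := by
  have h3 : (3 : ℝ) ≤ √(8 * (m : ℝ) + 9) := by
    apply Real.le_sqrt_of_sq_le
    have : (0 : ℝ) ≤ m := by positivity
    nlinarith
  unfold b
  apply Nat.le_floor
  push_cast; linarith

theorem sum_Icc' (n : ℕ) : 2 * ∑ i ∈ Icc 1 n, i = n * n + n := by
  induction n with
  | zero => simp
  | succ n ih => rw [Finset.sum_Icc_succ_top (by omega)]; nlinarith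

def g (i : ℕ) : ℤ := if i = 2 then -2 else i

theorem result (m : ℕ) (hm : 5 ≤ m) (hE : k m = b m) :
    ∃ S : Finset (ZMod m), ZSF m S ∧ S.card = k m ∧ ∃ a ∈ S, Nat.Coprime a.val m := by
  have hb := b_bound m
  have hb1 := b_ge m
  have : NeZero m := ⟨by omega⟩
  have : Fact (1 < m) := ⟨by omega⟩
  rcases Nat.eq_or_lt_of_le hm with h5 | h6
  · subst h5
    have hmem : k 5 ∈ {n | ∃ S : Finset (ZMod 5), ZSF 5 S ∧ S.card = n} := by
      apply Nat.sSup_mem
      · exact ⟨0, ∅, fun T hT hne => by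
          rw [Finset.subset_empty] at hT; subst hT; simp at hne, rfl⟩
      · exact ⟨Fintype.card (ZMod 5), fun n ⟨S, _, hS⟩ => hS ▸ Finset.card_le_univ S⟩
    obtain ⟨S, hS, hc⟩ := hmem
    have hne : S.Nonempty := Finset.card_pos.1 (by omega)
    obtain ⟨a, ha⟩ := hne
    refine ⟨S, hS, hc, a, ha, ?_⟩
    have h0 : a ≠ 0 := by
      have := hS {a} (by simpa using ha) (by simp)
      simpa using this
    have h1 : a.val < 5 := ZMod.val_lt a
    have h2 : a.val ≠ 0 := by simpa using h0
    generalize a.val = v at h1 h2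
    interval_cases v <;> simp_all <;> norm_num
  · have hbm : b m + 3 ≤ m := by
      by_contra hcon
      have : m - 2 ≤ b m := by omega
      obtain ⟨t, rfl⟩ : ∃ t, m = t + 6 := ⟨m - 6, by omega⟩
      have h' : t + 4 ≤ b (t + 6) := by omega
      nlinarith
    have hinj : Set.InjOn (fun i => ((g i : ℤ) : ZMod m)) (Icc 1 (b m) : Finset ℕ) := by
      intro i hi j hj hij
      simp only [coe_Icc, Set.mem_Icc] at hi hj
      have hd := (ZMod.intCast_eq_intCast_iff_dvd_sub _ _ _).1 hij
      have hz : g j - g i = 0 := by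
        apply Int.eq_zero_of_abs_lt_dvd hd
        unfold g; rw [abs_lt]; split_ifs <;> constructor <;> omega
      unfold g at hz; split_ifs at hz <;> omega
    refine ⟨(Icc 1 (b m)).image (fun i => ((g i : ℤ) : ZMod m)), ?_, ?_, ?_⟩
    · intro T hT hne h0
      obtain ⟨U, hU, rfl⟩ := Finset.subset_image_iff.1 hT
      rw [Finset.sum_image (hinj.mono (by exact_mod_cast hU))] at h0
      have h1 : ((∑ i ∈ U, g i : ℤ) : ZMod m) = 0 := by push_cast; exact h0
      have hd := (ZMod.intCast_zmod_eq_zero_iff_dvd _ _).1 h1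
      have hUne : U.Nonempty := Finset.image_nonempty.1 hne
      have hs : ∑ i ∈ U.erase 2, g i = ((∑ i ∈ U.erase 2, i : ℕ) : ℤ) := by
        push_cast
        apply Finset.sum_congr rfl
        intro i hi
        have := (Finset.mem_erase.1 hi).1
        simp [g, this]
      have hs2 : ∑ i ∈ U.erase 2, i < m := by
        have hsum := sum_Icc' (b m)
        by_cases h2 : 2 ≤ b m
        · have e1 : ∑ i ∈ U.erase 2, i ≤ ∑ i ∈ (Icc 1 (b m)).erase 2, i :=
            Finset.sum_le_sum_of_subset (Finset.erase_subset_erase _ hU)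
          have e2 := Finset.add_sum_erase (Icc 1 (b m)) (fun i => i)
            (show 2 ∈ Icc 1 (b m) by simp; omega)
          omega
        · have e1 : ∑ i ∈ U.erase 2, i ≤ ∑ i ∈ (Icc 1 (b m)), i :=
            Finset.sum_le_sum_of_subset ((Finset.erase_subset _ _).trans hU)
          have : b m = 1 := by omega
          rw [this] at e1
          simp at e1; omega
      by_cases h2 : 2 ∈ U
      · have e := Finset.add_sum_erase U g h2
        rw [hs] at e
        have g2 : g 2 = -2 := by simp [g]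
        rw [← e, g2] at hd
        have hz := Int.eq_zero_of_abs_lt_dvd hd (by rw [abs_lt]; constructor <;> omega)
        have h22 : ∑ i ∈ U.erase 2, i = 2 := by omega
        have hsub : U.erase 2 ⊆ {1} := by
          intro i hi
          have a1 := Finset.single_le_sum (f := fun i => i) (fun _ _ => Nat.zero_le _) hi
          have a2 := (Finset.mem_erase.1 hi).1
          have a3 := Finset.mem_Icc.1 (hU (Finset.mem_erase.1 hi).2)
          simp; omega
        have := Finset.sum_le_sum_of_subset (f := fun i => i) hsub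
        simp at this; omega
      · rw [Finset.erase_eq_of_notMem h2] at hs hs2
        rw [hs] at hd
        have hz := Int.eq_zero_of_abs_lt_dvd hd (by rw [abs_lt]; constructor <;> omega)
        obtain ⟨i, hi⟩ := hUne
        have a1 := Finset.single_le_sum (f := fun i => i) (fun _ _ => Nat.zero_le _) hi
        have a3 := Finset.mem_Icc.1 (hU hi)
        omega
    · rw [Finset.card_image_of_injOn hinj, hE]; simp
    · refine ⟨1, Finset.mem_image.2 ⟨1, by simp; omega, by simp [g]⟩, ?_⟩
      rw [ZMod.val_one]; simp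

end Pool.Agent.Results.MP_a37b83_nt.Q2No
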